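import Pool.Agent.Helper53.ZSF

set_option autoImplicit false

/-!
Zero-sum-free sets in `(Z_k)^r`: the proposed formula fails in every rank `r ≥ 3`, for infinitely
many `k`.
-/

namespace Pool.Agent.Results.MP_c19f90_co.EveryRank

open Finset

/-- `A` is zero-sum-free: no nonempty subset of `A` has sum zero. -/
def ZeroSumFree {G : Type} [AddCommGroup G] (A : Finset G) : Prop :=
  ∀ B ⊆ A, B.Nonempty → ∑ b ∈ B, b ≠ 0

/-- `τ^(Z_k^r, ℕ)`: the largest size of a zero-sum-free subset of `(Z_k)^r`, `k ≥ 1`. -/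
noncomputable def tauHat (r k : ℕ) : ℕ :=
  sSup {n | ∃ A : Finset (Fin r → ZMod k), ZeroSumFree A ∧ A.card = n}

/-- The proposed value `f_r(k)`. -/
noncomputable def f (r k : ℕ) : ℕ :=
  if r = 3 then
    if k ≤ 3 then 3 * (k - 1) else 2 * k + ⌊(√(8 * (k : ℝ) - 31) - 1) / 2⌋₊
  else
    if k ≤ r + 1 then r * (k - 1)
    else (r - 1) * k + ⌊(√(8 * ((k : ℝ) - (r : ℝ)) + 1) - 1) / 2⌋₊

private theorem le_tauHat {r k : ℕ} (hk : 0 < k) {A : Finset (Fin r → ZMod k)}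
    (hA : ZeroSumFree A) : A.card ≤ tauHat r k := by
  have : NeZero k := ⟨hk.ne'⟩
  refine le_csSup ⟨Fintype.card (Fin r → ZMod k), ?_⟩ ⟨A, hA, rfl⟩
  rintro n ⟨B, -, rfl⟩
  exact card_le_univ B

private theorem floor_le {x : ℝ} {j : ℕ} (hx : x < (4 * (j : ℝ) + 3) ^ 2) :
    ⌊(√x - 1) / 2⌋₊ ≤ 2 * j := by
  have h1 : √x < 4 * (j : ℝ) + 3 := by
    rw [Real.sqrt_lt' (by positivity)]
    exact hx
  have h2 : ⌊(√x - 1) / 2⌋₊ < 2 * j + 1 := by
    rw [Nat.floor_lt' (by omega)]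
    push_cast
    linarith
  omega

private theorem part1 (r j h : ℕ) (hr : 3 ≤ r) (h1 : j * (j + 1) + r ≤ h)
    (h2 : 2 * h < (2 * j + 1) * (j + 1) + (if r = 3 then 4 else r)) :
    f r (2 * h) < tauHat r (2 * h) := by
  obtain ⟨m, rfl⟩ : ∃ m, r = m + 3 := ⟨r - 3, by omega⟩
  obtain ⟨A, hA, hA2⟩ := Helper53.ZSF.main (h := h) (j := j) (m := m) (by omega)
  have h3 := le_tauHat (r := m + 3) (k := 2 * h) (by omega) (A := A) hA2
  refine lt_of_lt_of_le ?_ h3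
  rw [hA]
  have h4 : (m + 3 - 1) * (2 * h) = (m + 2) * (2 * h) := rfl
  have hcast : (2 * (h : ℝ)) < (2 * j + 1) * (j + 1) + ((if m + 3 = 3 then 4 else m + 3 : ℕ) : ℝ) := by
    exact_mod_cast h2
  unfold f
  by_cases hm : m + 3 = 3
  · have hm0 : m = 0 := by omega
    subst hm0
    rw [if_pos rfl] at hcast
    rw [if_pos rfl, if_neg (by nlinarith)]
    have h5 : ⌊(√(8 * ((2 * h : ℕ) : ℝ) - 31) - 1) / 2⌋₊ ≤ 2 * j := by
      refine floor_le ?_
      push_cast at hcast ⊢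
      nlinarith
    omega
  · rw [if_neg hm] at hcast
    rw [if_neg hm, if_neg (by nlinarith), h4]
    have h5 : ⌊(√(8 * (((2 * h : ℕ) : ℝ) - ((m + 3 : ℕ) : ℝ)) + 1) - 1) / 2⌋₊ ≤ 2 * j := by
      refine floor_le ?_
      push_cast at hcast ⊢
      nlinarith
    omega

/-- The formula fails: `f_r(k) < τ^(Z_k^r, ℕ)` for every `r ≥ 3` and every even `k = 2 h` with
`2 j (j + 1) + 2 r ≤ k < (2 j + 1)(j + 1) + r` (`+ 4` instead of `+ r` if `r = 3`) for some `j`;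
in particular, for every `r ≥ 3` it fails for infinitely many `k`. -/
theorem result :
    (∀ r j h : ℕ, 3 ≤ r → j * (j + 1) + r ≤ h →
      2 * h < (2 * j + 1) * (j + 1) + (if r = 3 then 4 else r) →
      f r (2 * h) < tauHat r (2 * h)) ∧
    ∀ r : ℕ, 3 ≤ r → ∀ K : ℕ, ∃ k : ℕ, K ≤ k ∧ f r k < tauHat r k := by
  refine ⟨part1, fun r hr K => ?_⟩
  refine ⟨2 * ((r + K) * (r + K + 1) + r), by nlinarith, part1 r (r + K) _ hr le_rfl ?_⟩
  have : r ≤ if r = 3 then 4 else r := by split_ifs <;> omega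
  nlinarith

end Pool.Agent.Results.MP_c19f90_co.EveryRank
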